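import Pool.Agent.H118R3.RBHard
import Pool.Agent.H118R3.RBMem

/-!
# The unweighted red-blue s-t cut problem in undirected graphs is NP-complete

The reduction is from CLIQUE.  Given a graph `G` and `k`, take the vertices of `G`, a source `s`
and a sink `t`.  For every vertex `v` there is a blue edge `v t`, so that at most `k` vertices lie
on the side of `s`.  For every edge `u v` of `G` there are a red edge `u v` and red paths of length
two from `s` to `u` and from `s` to `v`; these contribute at least 2 red cut edges unless both `u`
and `v` lie on the side of `s`.  Hence there is a cut with at most `2 m - k (k - 1)` red and at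
most `k` blue edges if and only if `G` has a clique of size `k`.
-/

namespace Pool.Agent.Results.MP_ad21dd_lc.NPComplete

open Pool.Agent.NPC Pool.Agent.NPC.H118R3.RB

/-- **The unweighted red-blue `s`-`t` cut problem in undirected (simple) graphs is
NP-complete.** -/
theorem result : InNPP RedBlueCut ∧ NPHardP RedBlueCut :=
  ⟨inNPP_redBlueCut, npHard_redBlueCut⟩

end Pool.Agent.Results.MP_ad21dd_lc.NPComplete
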